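import Pool.Agent.N176.GW.Stm

set_option autoImplicit false

/-!
# Large smooth parts are rare (real base)

Adapted from `Pool/Agent/N897/SH/RB.lean` (integer bases).
-/

namespace Pool.Agent.N170.GW

open Finset Filter Topology
open Pool.Agent.N176.OW (VT)
open Pool.Agent.N176.GW
open Pool.Agent.H305R2 (roughPart roughPart_prime ZZ ZZ_nonneg ZZ_le_exp)
open Pool.Agent.W66 (large_smooth_count)

lemma roughPart_zero_not (p : ℕ) : ¬ (roughPart p 0).Prime := by
  unfold roughPart
  simp [Nat.not_prime_one]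

/-- an integer of level `p` comes from few integers of level `t` -/
lemma fiber (α : ℝ) (hα : 1 < α) (g : ℕ → ℝ) (t p v : ℕ) (hv : 1 ≤ v) (A : Finset ℕ) :
    (A.filter (fun m => lv α g t p m = v)).card ≤ ⌈α ^ (t - p)⌉₊ := by
  classical
  have hw : (0 : ℝ) < α ^ (t - p) := by positivity
  rcases (A.filter (fun m => lv α g t p m = v)).eq_empty_or_nonempty with h | h
  · rw [h, card_empty]
    exact Nat.zero_le _
  · set m0 := (A.filter (fun m => lv α g t p m = v)).min' h with hm0
    have hm0mem := (A.filter (fun m => lv α g t p m = v)).min'_mem h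
    rw [← hm0] at hm0mem
    have hsub : A.filter (fun m => lv α g t p m = v) ⊆ Ico m0 (m0 + ⌈α ^ (t - p)⌉₊) := by
      intro m hm
      have h1 : m0 ≤ m := (A.filter (fun m => lv α g t p m = v)).min'_le m hm
      have h2 := (mem_filter.1 hm).2
      have h3 := (mem_filter.1 hm0mem).2
      unfold lv at h2 h3
      rw [Nat.floor_eq_iff' (by omega)] at h2 h3
      have h4 : (m : ℝ) / α ^ (t - p) < (m0 : ℝ) / α ^ (t - p) + 1 := by linarith [h2.2, h3.1]
      rw [div_lt_iff₀ hw, add_mul, div_mul_cancel₀ _ hw.ne', one_mul] at h4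
      rw [mem_Ico]
      refine ⟨h1, ?_⟩
      have h5 : (m : ℝ) < ((m0 + ⌈α ^ (t - p)⌉₊ : ℕ) : ℝ) := by
        push_cast
        linarith [Nat.le_ceil (α ^ (t - p))]
      exact_mod_cast h5
    refine (card_le_card hsub).trans ?_
    rw [Nat.card_Ico]
    omega

theorem rb (α : ℝ) (hα : 1 < α) (g : ℕ → ℝ) (hg : ∃ G : ℝ, ∀ p, |g p| ≤ G) : S_RB α g := by
  classical
  obtain ⟨G, hG⟩ := hg
  have hα0 : (0 : ℝ) < α := by linarith
  set L := Real.log α with hL
  have hL0 : 0 < L := Real.log_pos hα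
  obtain ⟨P1, hP1⟩ := eventually_atTop.1 (ZZ_le_exp (c := L / 128) (by positivity))
  obtain ⟨P2, hP2⟩ := exists_nat_ge (196608 / L ^ 2)
  obtain ⟨P3, hP3⟩ := pow_unbounded_of_one_lt (G + 1) hα
  refine ⟨L / 128, by positivity, max P1 (max P2 (2 * P3 + 2)), ?_⟩
  intro x hx T hT z hz t ht j hj1 hj2
  have hxP1 : P1 ≤ x := le_trans (le_max_left _ _) hx
  have hxP2 : P2 ≤ x := le_trans ((le_max_left _ _).trans (le_max_right _ _)) hx
  have hxP3 : 2 * P3 + 2 ≤ x := le_trans ((le_max_right _ _).trans (le_max_right _ _)) hx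
  set S : ℝ := Real.exp (x * L / 8) with hS
  have hS0 : 0 < S := Real.exp_pos _
  -- numerical bounds
  have hxr : (196608 / L ^ 2 : ℝ) ≤ x := hP2.trans (by exact_mod_cast hxP2)
  have hexp : 6 * (x : ℝ) ≤ Real.exp (L / 128 * x) := by
    have hx0 : (0 : ℝ) ≤ x := Nat.cast_nonneg x
    have h1 := Real.quadratic_le_exp_of_nonneg (x := L / 128 * x) (by positivity)
    have h2 : 196608 ≤ x * L ^ 2 := by
      rw [div_le_iff₀ (by positivity)] at hxr; exact hxr
    have h3 : (196608 : ℝ) * x ≤ x * L ^ 2 * x := mul_le_mul_of_nonneg_right h2 hx0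
    have h4 : 6 * (x : ℝ) ≤ (L / 128 * x) ^ 2 / 2 := by
      have : (L / 128 * x) ^ 2 / 2 = x * L ^ 2 * x / 32768 := by ring
      rw [this, le_div_iff₀ (by norm_num)]
      linarith
    have h5 : (0 : ℝ) ≤ L / 128 * x := by positivity
    linarith
  -- one exponent
  have hone : ∀ p ∈ T, (((cell α z t j).filter (fun m => (roughPart p (lv α g t p m)).Prime ∧
      S ≤ ((lv α g t p m / roughPart p (lv α g t p m) : ℕ) : ℝ))).card : ℝ) ≤
      6 * Real.exp (-(L / 64 * x)) * α ^ (t - z) := by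
    intro p hp
    obtain ⟨hp1, hp2⟩ := hT p hp
    have hzp : z ≤ p := by omega
    have hpt : p ≤ t := by omega
    have e' : α ^ (t - z) = α ^ (p - z) * α ^ (t - p) := by
      rw [← pow_add]; congr 1; omega
    have hw : (1 : ℝ) ≤ α ^ (t - p) := one_le_pow₀ hα.le
    have hw0 : (0 : ℝ) < α ^ (t - p) := by linarith
    have hpz0 : (0 : ℝ) < α ^ (p - z) := by positivity
    -- the shift is small
    have hGp : G ≤ α ^ (p - z) := by
      have h1 : α ^ P3 ≤ α ^ (p - z) := pow_le_pow_right₀ hα.le (by omega)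
      linarith
    set V : ℕ := ⌊((j : ℝ) + 2) * α ^ (p - z)⌋₊ with hV
    have hVr : (V : ℝ) ≤ ((j : ℝ) + 2) * α ^ (p - z) := Nat.floor_le (by positivity)
    set A := (cell α z t j).filter (fun m => (roughPart p (lv α g t p m)).Prime ∧
      S ≤ ((lv α g t p m / roughPart p (lv α g t p m) : ℕ) : ℝ)) with hA
    set B := (Icc 1 V).filter (fun n => (roughPart p n).Prime ∧
      S ≤ ((n / roughPart p n : ℕ) : ℝ)) with hB
    have hmaps : ∀ m ∈ A, lv α g t p m ∈ B := by
      intro m hm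
      rw [hA, mem_filter] at hm
      obtain ⟨hm1, hm2, hm3⟩ := hm
      rw [hB, mem_filter, mem_Icc]
      have hv1 : 1 ≤ lv α g t p m := by
        rcases Nat.eq_zero_or_pos (lv α g t p m) with h0 | h0
        · rw [h0] at hm2
          exact absurd hm2 (roughPart_zero_not p)
        · exact h0
      refine ⟨⟨hv1, ?_⟩, hm2, hm3⟩
      rw [hV]
      unfold lv
      apply Nat.floor_le_floor
      unfold cell at hm1
      rw [mem_Ico] at hm1
      have h1 : (m : ℝ) < ((j : ℝ) + 1) * α ^ (t - z) := Nat.lt_ceil.1 hm1.2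
      have h2 : (m : ℝ) / α ^ (t - p) ≤ ((j : ℝ) + 1) * α ^ (p - z) := by
        rw [div_le_iff₀ hw0]
        rw [e'] at h1
        linarith
      have h3 : g p ≤ G := (le_abs_self _).trans (hG p)
      linarith
    have hcard : A.card ≤ ⌈α ^ (t - p)⌉₊ * B.card := by
      refine Finset.card_le_mul_card_image_of_maps_to hmaps _ ?_
      intro v hv
      rw [hB, mem_filter, mem_Icc] at hv
      exact fiber α hα g t p v hv.1.1 A
    have hBc : (B.card : ℝ) ≤ (V : ℝ) * (S ^ (-(1 / 2) : ℝ) * ZZ p) :=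
      large_smooth_count p V hS0
    have hZ0 := ZZ_nonneg p
    have hceil : (⌈α ^ (t - p)⌉₊ : ℝ) ≤ 2 * α ^ (t - p) := by
      have := Nat.ceil_lt_add_one hw0.le
      linarith
    have hX : (V : ℝ) ≤ 3 * Real.exp (L / 32 * x) * α ^ (p - z) := by
      refine hVr.trans ?_
      have h5 : α ^ (2 * z) = Real.exp (L * (2 * z)) := by
        have hbe : α = Real.exp L := (Real.exp_log hα0).symm
        rw [hbe, ← Real.exp_nat_mul]
        congr 1
        push_cast
        ring
      have h6 : α ^ (2 * z) ≤ Real.exp (L / 32 * x) := by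
        rw [h5]
        apply Real.exp_le_exp.mpr
        have h7 : (64 : ℝ) * z ≤ x := by exact_mod_cast hz
        have h8 : L * (64 * (z : ℝ)) ≤ L * x := mul_le_mul_of_nonneg_left h7 hL0.le
        linarith
      have h9 : (1 : ℝ) ≤ Real.exp (L / 32 * x) := Real.one_le_exp (by positivity)
      have h10 : (j : ℝ) + 2 ≤ 3 * Real.exp (L / 32 * x) := by linarith
      exact mul_le_mul_of_nonneg_right h10 (by positivity)
    have hSe : S ^ (-(1 / 2) : ℝ) = Real.exp (-(L / 16 * x)) := by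
      rw [hS, ← Real.exp_mul]
      congr 1
      ring
    have hZ : ZZ p ≤ Real.exp (L / 64 * x) := by
      refine (hP1 p (by omega)).trans (Real.exp_le_exp.mpr ?_)
      have h7 : (p : ℝ) ≤ 2 * x := by exact_mod_cast hp2
      have h8 : L / 128 * (p : ℝ) ≤ L / 128 * (2 * x) :=
        mul_le_mul_of_nonneg_left h7 (by positivity)
      linarith
    have hcard' : (A.card : ℝ) ≤ (⌈α ^ (t - p)⌉₊ : ℝ) * (B.card : ℝ) := by exact_mod_cast hcard
    calc (A.card : ℝ) ≤ (⌈α ^ (t - p)⌉₊ : ℝ) * (B.card : ℝ) := hcard'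
      _ ≤ (2 * α ^ (t - p)) * ((V : ℝ) * (S ^ (-(1 / 2) : ℝ) * ZZ p)) :=
          mul_le_mul hceil hBc (Nat.cast_nonneg _) (by positivity)
      _ ≤ (2 * α ^ (t - p)) * ((3 * Real.exp (L / 32 * x) * α ^ (p - z)) *
            (Real.exp (-(L / 16 * x)) * Real.exp (L / 64 * x))) := by
          rw [hSe]; gcongr
      _ = 6 * (Real.exp (L / 32 * x) * Real.exp (-(L / 16 * x)) * Real.exp (L / 64 * x)) *
            (α ^ (p - z) * α ^ (t - p)) := by ring
      _ = 6 * Real.exp (-(L / 64 * x)) * α ^ (t - z) := by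
          rw [← Real.exp_add, ← Real.exp_add, e']
          congr 3
          ring
  -- the union
  have hcard : (T.card : ℝ) ≤ x := by
    have h1 : T ⊆ Ioc x (2 * x) := fun p hp => mem_Ioc.mpr (hT p hp)
    have h2 := Finset.card_le_card h1
    rw [Nat.card_Ioc] at h2
    exact_mod_cast (by omega : T.card ≤ x)
  have hbig : (((cell α z t j).filter (fun m => Big α g T t x m)).card : ℝ) ≤
      ∑ p ∈ T, (((cell α z t j).filter (fun m => (roughPart p (lv α g t p m)).Prime ∧
      S ≤ ((lv α g t p m / roughPart p (lv α g t p m) : ℕ) : ℝ))).card : ℝ) := by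
    rw [← Nat.cast_sum]
    refine Nat.cast_le.2 ?_
    refine le_trans (card_le_card ?_) card_biUnion_le
    intro m hm
    rw [mem_filter] at hm
    obtain ⟨hm1, p, hp, h1, h2⟩ := hm
    rw [mem_biUnion]
    exact ⟨p, hp, mem_filter.2 ⟨hm1, h1, h2⟩⟩
  have hbt : (0 : ℝ) < α ^ (t - z) := by positivity
  calc _ ≤ ∑ p ∈ T, (((cell α z t j).filter (fun m => (roughPart p (lv α g t p m)).Prime ∧
      S ≤ ((lv α g t p m / roughPart p (lv α g t p m) : ℕ) : ℝ))).card : ℝ) := hbig
    _ ≤ ∑ p ∈ T, 6 * Real.exp (-(L / 64 * x)) * α ^ (t - z) := Finset.sum_le_sum hone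
    _ = T.card * (6 * Real.exp (-(L / 64 * x)) * α ^ (t - z)) := by
        rw [Finset.sum_const, nsmul_eq_mul]
    _ ≤ x * (6 * Real.exp (-(L / 64 * x)) * α ^ (t - z)) := by gcongr
    _ = 6 * x * Real.exp (-(L / 64 * x)) * α ^ (t - z) := by ring
    _ ≤ Real.exp (L / 128 * x) * Real.exp (-(L / 64 * x)) * α ^ (t - z) := by gcongr
    _ = Real.exp (-(L / 128 * x)) * α ^ (t - z) := by
        rw [← Real.exp_add]
        congr 2
        ring

end Pool.Agent.N170.GW
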